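import Pool.Agent.U728.KP.Stm

/-!
# Project KP, package HAM: the perfect Hamming code of length `p + 1` over `ZMod p`
-/

set_option autoImplicit false

namespace Pool.Agent.U44.KP

open Pool.Agent.U728.KP

lemma dist_le_one {ι α : Type} [Fintype ι] [DecidableEq α] {x c : ι → α} (i : ι)
    (h : ∀ j, j ≠ i → x j = c j) : hammingDist x c ≤ 1 := by
  classical
  unfold hammingDist
  have h1 : (Finset.univ.filter fun j => x j ≠ c j) ⊆ {i} := by
    intro j hj
    rw [Finset.mem_filter] at hj
    rw [Finset.mem_singleton]
    by_contra hne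
    exact hj.2 (h j hne)
  exact (Finset.card_le_card h1).trans (by simp)

theorem t_HAM : S_HAM := by
  classical
  intro p hp
  haveI : Fact p.Prime := ⟨hp⟩
  haveI : NeZero p := ⟨hp.ne_zero⟩
  obtain ⟨e, he⟩ : ∃ e : Fin p ≃ ZMod p, e = (ZMod.finEquiv p).toEquiv := ⟨_, rfl⟩
  obtain ⟨s1, hs1⟩ : ∃ s1 : (Fin (p + 1) → Fin p) → ZMod p, s1 = fun x =>
    e (x (Fin.last p)) + ∑ a : Fin p, e a * e (x (Fin.castSucc a)) := ⟨_, rfl⟩
  obtain ⟨s2, hs2⟩ : ∃ s2 : (Fin (p + 1) → Fin p) → ZMod p, s2 = fun x =>
    ∑ a : Fin p, e (x (Fin.castSucc a)) := ⟨_, rfl⟩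
  refine ⟨Finset.univ.filter fun x => s1 x = 0 ∧ s2 x = 0, ?_, ?_⟩
  · intro x
    by_cases h0 : s2 x = 0
    · obtain ⟨c, hc⟩ : ∃ c : Fin (p + 1) → Fin p,
        c = Function.update x (Fin.last p) (e.symm (e (x (Fin.last p)) - s1 x)) := ⟨_, rfl⟩
      have hc1 : ∀ a : Fin p, c (Fin.castSucc a) = x (Fin.castSucc a) := by
        intro a
        rw [hc, Function.update_of_ne (Fin.castSucc_lt_last a).ne]
      have hc2 : e (c (Fin.last p)) = e (x (Fin.last p)) - s1 x := by
        rw [hc, Function.update_self, Equiv.apply_symm_apply]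
      refine ⟨c, ?_, dist_le_one (Fin.last p) fun j hj => ?_⟩
      · rw [Finset.mem_filter]
        refine ⟨Finset.mem_univ _, ?_, ?_⟩
        · have h1 : s1 c = s1 x - s1 x := by
            conv_lhs => rw [hs1]
            simp only [hc1, hc2]
            have h2 : s1 x = e (x (Fin.last p)) + ∑ a : Fin p, e a * e (x (Fin.castSucc a)) := by
              rw [hs1]
            rw [h2]
            ring
          rw [h1, sub_self]
        · have h1 : s2 c = s2 x := by
            rw [hs2]
            simp only [hc1]
          rw [h1, h0]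
      · rw [hc, Function.update_of_ne hj]
    · obtain ⟨a, ha⟩ : ∃ a : Fin p, e a = s1 x / s2 x := ⟨e.symm _, Equiv.apply_symm_apply _ _⟩
      obtain ⟨c, hc⟩ : ∃ c : Fin (p + 1) → Fin p,
        c = Function.update x (Fin.castSucc a) (e.symm (e (x (Fin.castSucc a)) - s2 x)) := ⟨_, rfl⟩
      have hc1 : ∀ b : Fin p, e (c (Fin.castSucc b)) =
          e (x (Fin.castSucc b)) - (if b = a then s2 x else 0) := by
        intro b
        by_cases hb : b = a
        · rw [hb, hc, Function.update_self, Equiv.apply_symm_apply, if_pos rfl]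
        · rw [hc, Function.update_of_ne (fun h => hb (Fin.castSucc_injective p h)), if_neg hb,
            sub_zero]
      have hc2 : c (Fin.last p) = x (Fin.last p) := by
        rw [hc, Function.update_of_ne (Fin.castSucc_lt_last a).ne']
      refine ⟨c, ?_, dist_le_one (Fin.castSucc a) fun j hj => ?_⟩
      · rw [Finset.mem_filter]
        have h2 : s1 x = e (x (Fin.last p)) + ∑ a : Fin p, e a * e (x (Fin.castSucc a)) := by
          rw [hs1]
        have h3 : s2 x = ∑ a : Fin p, e (x (Fin.castSucc a)) := by rw [hs2]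
        refine ⟨Finset.mem_univ _, ?_, ?_⟩
        · have h1 : s1 c = s1 x - e a * s2 x := by
            conv_lhs => rw [hs1]
            simp only [hc1, hc2, mul_sub, Finset.sum_sub_distrib, mul_ite, mul_zero,
              Finset.sum_ite_eq', Finset.mem_univ, if_true]
            rw [h2]
            ring
          rw [h1, ha, div_mul_cancel₀ _ h0, sub_self]
        · have h1 : s2 c = s2 x - s2 x := by
            conv_lhs => rw [hs2]
            simp only [hc1, Finset.sum_sub_distrib, Finset.sum_ite_eq', Finset.mem_univ, if_true]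
            rw [← h3]
          rw [h1, sub_self]
      · rw [hc, Function.update_of_ne hj]
  · have hcard : Fintype.card ({a : Fin p // a ≠ 0} → Fin p) = p ^ (p - 1) := by
      rw [Fintype.card_fun, Fintype.card_fin, Fintype.card_subtype_compl, Fintype.card_fin,
        Fintype.card_unique]
    rw [← hcard]
    have h := Finset.card_le_card_of_injOn
      (s := Finset.univ.filter fun x : Fin (p + 1) → Fin p => s1 x = 0 ∧ s2 x = 0)
      (t := (Finset.univ : Finset ({a : Fin p // a ≠ 0} → Fin p)))
      (fun x => fun a => x (Fin.castSucc a.1)) (fun x _ => Finset.mem_univ _) ?_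
    · rwa [Finset.card_univ] at h
    · intro x hx y hy hxy
      rw [Finset.mem_coe, Finset.mem_filter] at hx hy
      have h1 : ∀ a : Fin p, a ≠ 0 → x (Fin.castSucc a) = y (Fin.castSucc a) := fun a ha =>
        congrFun hxy ⟨a, ha⟩
      have h2 : ∑ a : Fin p, (e (x (Fin.castSucc a)) - e (y (Fin.castSucc a))) = 0 := by
        have hx2 := hx.2.2
        have hy2 := hy.2.2
        rw [hs2] at hx2 hy2
        beta_reduce at hx2 hy2
        rw [Finset.sum_sub_distrib, hx2, hy2, sub_zero]
      rw [Finset.sum_eq_single 0 (fun a _ ha => by rw [h1 a ha, sub_self])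
        (fun h => absurd (Finset.mem_univ _) h)] at h2
      have h3 : ∀ a : Fin p, x (Fin.castSucc a) = y (Fin.castSucc a) := by
        intro a
        by_cases ha : a = 0
        · rw [ha]
          exact e.injective (sub_eq_zero.1 h2)
        · exact h1 a ha
      have h4 : x (Fin.last p) = y (Fin.last p) := by
        have hx1 := hx.2.1
        have hy1 := hy.2.1
        rw [hs1] at hx1 hy1
        beta_reduce at hx1 hy1
        simp only [h3] at hx1
        apply e.injective
        have := hx1.trans hy1.symm
        exact add_right_cancel this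
      funext j
      rcases Fin.eq_castSucc_or_eq_last j with ⟨a, rfl⟩ | rfl
      · exact h3 a
      · exact h4

end Pool.Agent.U44.KP
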